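import Pool.Agent.H55.QR.Targets

/-! Row LIMP: the exponents tend to their limits (helper49). -/

set_option autoImplicit false

namespace Pool.Agent.H49.QR

open Pool.Agent.H55.QR
open Filter Topology

theorem hardP_eps {k : ℕ} {ε ε' c C : ℝ} (h : ε' ≤ ε) (hH : HardP k ε' c C) : HardP k ε c C := by
  obtain ⟨K, γ, hγ, n₀, hn⟩ := hH
  refine ⟨K, γ, hγ, n₀, fun n hnn => ?_⟩
  obtain ⟨Y, m, phi, hY, h1, h2⟩ := hn n hnn
  refine ⟨Y, m, phi, hY, fun a => ?_, h2⟩
  obtain ⟨p1, p2, p3, p4⟩ := h1 a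
  refine ⟨p1, p2, p3, fun x => le_trans ?_ (p4 x)⟩
  exact mul_le_mul_of_nonneg_right (by linarith) (by positivity)

theorem pf_LIMP (hP : S_PADP) (hR : S_RED) : S_LIMP := by
  intro hF h3 ε hε
  have key : ∀ (w k : ℕ) (ε' c C c' C' : ℝ), w ≤ k → ε' ≤ ε → c' < c → C' < C →
      HardP w ε' c C → HardQ k ε c' C' := by
    intro w k ε' c C c' C' hwk hε' hc hC hH
    have h1 : HardP k ε' ((c + c') / 2) ((C + C') / 2) :=
      hP w k ε' c C _ _ hwk (by linarith) (by linarith) hH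
    exact hR k ε ((c + c') / 2) ((C + C') / 2) c' C' (by linarith) (by linarith)
      (hardP_eps hε' h1)
  obtain ⟨c3, C3, hc3, hC3, hH3⟩ := h3 ε hε
  have he : ∀ j : ℕ, 0 < min ε (1 / ((j : ℝ) + 3)) / 2 := by
    intro j
    have : 0 < min ε (1 / ((j : ℝ) + 3)) := lt_min hε (by positivity)
    linarith
  choose w hw using fun j : ℕ => hF ((j : ℝ) + 2) _ (he j)
  obtain ⟨W, hW⟩ : ∃ W : ℕ → ℕ, W = fun j => if j = 0 then 3 else w j := ⟨_, rfl⟩
  obtain ⟨cc, hcc⟩ : ∃ cc : ℕ → ℝ, cc = fun j : ℕ => if j = 0 then c3 / 2 else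
    1 / 2 - 2 * (min ε (1 / ((j : ℝ) + 3)) / 2) := ⟨_, rfl⟩
  obtain ⟨CC, hCC⟩ : ∃ CC : ℕ → ℝ, CC = fun j : ℕ => if j = 0 then C3 / 2 else (j : ℝ) := ⟨_, rfl⟩
  have hQ : ∀ j k, W j ≤ k → HardQ k ε (cc j) (CC j) := by
    intro j k hk
    rw [hW] at hk
    rw [hcc, hCC]
    dsimp only at hk ⊢
    split_ifs at hk ⊢ with hj
    · exact key 3 k ε c3 C3 _ _ hk le_rfl (by linarith) (by linarith) hH3
    · refine key (w j) k _ _ _ _ _ hk ?_ ?_ ?_ (hw j)
      · have h1 := min_le_left ε (1 / ((j : ℝ) + 3))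
        have h2 := he j
        linarith
      · have h2 := he j
        linarith
      · linarith
  have hpos : ∀ j, 0 < cc j ∧ 0 < CC j := by
    intro j
    rw [hcc, hCC]
    dsimp only
    split_ifs with hj
    · constructor <;> linarith
    · have h1 := min_le_right ε (1 / ((j : ℝ) + 3))
      have h2 : 1 / ((j : ℝ) + 3) ≤ 1 / 3 := by
        have : (0 : ℝ) ≤ j := Nat.cast_nonneg j
        exact one_div_le_one_div_of_le (by norm_num) (by linarith)
      have h3 : (0 : ℝ) < j := by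
        have : 0 < j := Nat.pos_of_ne_zero hj
        exact_mod_cast this
      constructor <;> linarith
  have hcclim : Tendsto cc atTop (𝓝 (1 / 2)) := by
    rw [Metric.tendsto_atTop]
    intro e he0
    obtain ⟨n, hn⟩ := exists_nat_one_div_lt he0
    refine ⟨n + 1, fun j hj => ?_⟩
    have hj0 : j ≠ 0 := by omega
    rw [hcc]
    dsimp only
    rw [if_neg hj0, Real.dist_eq]
    have h1 := min_le_right ε (1 / ((j : ℝ) + 3))
    have h2 := he j
    have h3 : 1 / ((j : ℝ) + 3) ≤ 1 / ((n : ℝ) + 1) := by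
      have : ((n + 1 : ℕ) : ℝ) ≤ j := by exact_mod_cast hj
      push_cast at this
      have hn0 : (0 : ℝ) ≤ n := Nat.cast_nonneg n
      exact one_div_le_one_div_of_le (by linarith) (by linarith)
    rw [abs_lt]
    constructor <;> linarith
  have hCClim : Tendsto CC atTop atTop := by
    refine tendsto_atTop_mono' atTop ?_ tendsto_natCast_atTop_atTop
    filter_upwards [eventually_ge_atTop 1] with j hj
    rw [hCC]
    dsimp only
    rw [if_neg (by omega)]
  obtain ⟨J, hJ⟩ : ∃ J : ℕ → ℕ, J = fun k => Nat.findGreatest (fun j => W j ≤ k) k := ⟨_, rfl⟩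
  have hJW : ∀ k, 3 ≤ k → W (J k) ≤ k := by
    intro k hk
    rw [hJ]
    refine Nat.findGreatest_spec (P := fun j => W j ≤ k) (Nat.zero_le k) ?_
    rw [hW]
    exact hk
  have hJlim : Tendsto J atTop atTop := by
    rw [tendsto_atTop]
    intro j
    filter_upwards [eventually_ge_atTop (max j (W j))] with k hk
    rw [hJ]
    exact Nat.le_findGreatest (le_trans (le_max_left _ _) hk) (le_trans (le_max_right _ _) hk)
  exact ⟨fun k => cc (J k), fun k => CC (J k), fun k _ => hpos (J k), hcclim.comp hJlim,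
    hCClim.comp hJlim, fun k hk => hQ (J k) k (hJW k hk)⟩

end Pool.Agent.H49.QR
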